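import Pool.Agent.helper77.SK.Spec

/-!
# SK, row VI (see the docstring of `VI_stmt`)
-/

set_option autoImplicit false

namespace Pool.Agent.SK

open Polynomial Finset

theorem VI_symm {p : ℕ} [Fact p.Prime] {A B : Finset (ZMod p)} {d : ℕ} {ε : ZMod p}
    (h : Ex A B d ε) : Ex B A d ((-1) ^ d * ε) := by
  obtain ⟨⟨he, hcl⟩, hA, hB, hd, hp⟩ := h
  refine ⟨⟨?_, ?_⟩, hB, hA, ?_, hp⟩
  · exact mul_ne_zero (pow_ne_zero _ (neg_ne_zero.2 one_ne_zero)) he
  · intro b hb a ha
    have h1 : b - a = (-1) * (a - b) := by ring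
    rw [h1, mul_pow, hcl a ha b hb]
  · rw [mul_comm]; exact hd

theorem VI_disj {p : ℕ} [Fact p.Prime] {A B : Finset (ZMod p)} {d : ℕ} {ε : ZMod p}
    (h : Ex A B d ε) : Disjoint A B := by
  obtain ⟨⟨he, hcl⟩, hA, hB, hd, hp⟩ := h
  rw [Finset.disjoint_left]
  intro a ha hb
  have h1 := hcl a ha a hb
  have hd0 : d ≠ 0 := by
    rw [← hd]
    have := Nat.mul_le_mul hA hB
    omega
  rw [sub_self, zero_pow hd0] at h1
  exact he h1.symm

theorem VI_root (hLOC : LOC_stmt) (hTC : TC_stmt) (hWI : WI_stmt) {p : ℕ} [Fact p.Prime]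
    {A B : Finset (ZMod p)} {d : ℕ} {ε : ZMod p} (h : Ex A B d ε) (a : ZMod p) (ha : a ∈ A) :
    (C (K1 (A.card : ZMod p) B.card) * (D3 (pol A) * pol B)
      - C (K2 (A.card : ZMod p) B.card) * (D2 (pol A) * D1 (pol B))
      + C (K2 (B.card : ZMod p) A.card) * (D1 (pol A) * D2 (pol B))
      - C (K1 (B.card : ZMod p) A.card) * (pol A * D3 (pol B))).eval a = 0 := by
  obtain ⟨α, P, u1, u2, u3, v1, v2, v3, -, -, hA0, hA1, hA2, hA3, -, hB0, hB1, hB2, hB3,
    hR1, hR2, -⟩ := hLOC p A B d ε h a ha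
  obtain ⟨eA0, eA1, eA2, eA3, -⟩ := hTC p (pol A) a
  obtain ⟨eB0, eB1, eB2, eB3, -⟩ := hTC p (pol B) a
  rw [hA0] at eA0
  rw [hA1] at eA1
  rw [hA2] at eA2
  rw [hA3] at eA3
  rw [hB0] at eB0
  rw [hB1] at eB1
  rw [hB2] at eB2
  rw [hB3] at eB3
  -- the derivative of WI at `a`
  have hW := congrArg (fun f => eval a (derivative f)) (hWI p A B d ε h)
  have hW' : (B.card : ZMod p) * (B.card + 1) *
        ((D3 (pol A)).eval a * (pol B).eval a + (D2 (pol A)).eval a * (D1 (pol B)).eval a)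
      - 2 * ((A.card : ZMod p) * B.card - 1) *
        ((D2 (pol A)).eval a * (D1 (pol B)).eval a + (D1 (pol A)).eval a * (D2 (pol B)).eval a)
      + (A.card : ZMod p) * (A.card + 1) *
        ((D1 (pol A)).eval a * (D2 (pol B)).eval a + (pol A).eval a * (D3 (pol B)).eval a)
      = 0 := by
    simp only [derivative_sub, derivative_add, derivative_mul, derivative_C, zero_mul,
      zero_add, eval_sub, eval_add, eval_mul, eval_C, derivative_zero, eval_zero, D1, D2, D3] at hW
    simp only [D1, D2, D3]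
    exact hW
  rw [eA0, eA1, eA2, eA3, eB0, eB1, eB2, eB3] at hW'
  simp only [eval_sub, eval_add, eval_mul, eval_C]
  rw [eA0, eA1, eA2, eA3, eB0, eB1, eB2, eB3]
  unfold R1 at hR1
  unfold R2 at hR2
  simp only [K1, K2]
  linear_combination (12 * α * P) * hR2 +
    (α * P * (-12 * ((B.card : ZMod p) - 1) * (B.card + 2) * u1
      - 24 * ((A.card : ZMod p) * B.card - 2) * v1)) * hR1 +
    (3 * ((A.card : ZMod p) * B.card - 3)) * hW'

theorem VI_deg {p : ℕ} [Fact p.Prime] (S : Finset (ZMod p)) : (pol S).natDegree = S.card := by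
  unfold pol
  rw [natDegree_prod_of_monic _ _ (fun s _ => monic_X_sub_C s)]
  simp

theorem VI (hLOC : LOC_stmt) (hTC : TC_stmt) (hWI : WI_stmt) : VI_stmt := by
  intro p _ A B d ε h
  have hd := VI_disj h
  have hA2 : 2 ≤ A.card := h.2.1
  have hB2 : 2 ≤ B.card := h.2.2.1
  apply Polynomial.eq_zero_of_natDegree_lt_card_of_eval_eq_zero' _ (A ∪ B)
  · intro x hx
    rcases Finset.mem_union.1 hx with hx | hx
    · exact VI_root hLOC hTC hWI h x hx
    · have h1 := VI_root hLOC hTC hWI (VI_symm h) x hx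
      simp only [eval_sub, eval_add, eval_mul, eval_C] at h1 ⊢
      linear_combination -h1
  · rw [Finset.card_union_of_disjoint hd]
    have hdA := VI_deg A
    have hdB := VI_deg B
    have d1 : ∀ f : (ZMod p)[X], (D1 f).natDegree ≤ f.natDegree - 1 := fun f =>
      natDegree_derivative_le f
    have d2 : ∀ f : (ZMod p)[X], (D2 f).natDegree ≤ f.natDegree - 1 := fun f =>
      (natDegree_derivative_le _).trans ((Nat.sub_le _ _).trans (natDegree_derivative_le f))
    have d3 : ∀ f : (ZMod p)[X], (D3 f).natDegree ≤ f.natDegree - 1 := fun f =>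
      (natDegree_derivative_le _).trans ((Nat.sub_le _ _).trans (d2 f))
    have key : ∀ (c : ZMod p) (f g : (ZMod p)[X]) (m n : ℕ), f.natDegree ≤ m → g.natDegree ≤ n →
        (C c * (f * g)).natDegree ≤ m + n := by
      intro c f g m n hf hg
      exact (natDegree_C_mul_le _ _).trans (natDegree_mul_le.trans (Nat.add_le_add hf hg))
    have t1 := key (K1 (A.card : ZMod p) B.card) _ _ _ _ (d3 (pol A)) (le_refl (pol B).natDegree)
    have t2 := key (K2 (A.card : ZMod p) B.card) _ _ _ _ (d2 (pol A)) (d1 (pol B))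
    have t3 := key (K2 (B.card : ZMod p) A.card) _ _ _ _ (d1 (pol A)) (d2 (pol B))
    have t4 := key (K1 (B.card : ZMod p) A.card) _ _ _ _ (le_refl (pol A).natDegree) (d3 (pol B))
    rw [hdA, hdB] at t1 t2 t3 t4
    have b : (C (K1 (A.card : ZMod p) B.card) * (D3 (pol A) * pol B)
      - C (K2 (A.card : ZMod p) B.card) * (D2 (pol A) * D1 (pol B))
      + C (K2 (B.card : ZMod p) A.card) * (D1 (pol A) * D2 (pol B))
      - C (K1 (B.card : ZMod p) A.card) * (pol A * D3 (pol B))).natDegree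
        ≤ A.card + B.card - 1 := by
      refine (natDegree_sub_le _ _).trans (max_le ((natDegree_add_le _ _).trans (max_le
        ((natDegree_sub_le _ _).trans (max_le ?_ ?_)) ?_)) ?_)
      · exact t1.trans (by omega)
      · exact t2.trans (by omega)
      · exact t3.trans (by omega)
      · exact t4.trans (by omega)
    exact lt_of_le_of_lt b (by omega)

end Pool.Agent.SK
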